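import Pool.Agent.Lib.MP_4c536a_lc.BG.Defs
import Pool.Agent.Lib.MP_2eed13_lc.LCA.H39.Block
import Pool.Agent.Lib.MP_2eed13_lc.LCA.H35.Row

/-!
# BLOCKA: blocks of the space-time diagram of an array with advice

The blocks carry their index, so that the block map can look up the advice.
-/

set_option autoImplicit false

namespace Pool.Agent.Lib.MP_4c536a_lc.BG

open Finset
open Pool.Agent.Lib.MP_2eed13_lc.LCA
open Pool.Agent.Lib.MP_2eed13_lc.LCA.H39 (content content_add)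

theorem blk_pow {C e X : ℕ} (h : 2 ^ X ≤ C) (he : e ≤ X) : powc 2 e C = 2 ^ e := by
  unfold powc
  exact min_eq_left ((Nat.pow_le_pow_right (by norm_num) he).trans h)

theorem blk_powq {C β e X : ℕ} (h : 2 ^ X ≤ C) (he : β * e ≤ X) :
    powc (2 ^ β) e C = (2 ^ β) ^ e := by
  unfold powc
  refine min_eq_left (le_trans ?_ h)
  rw [← pow_mul]
  exact Nat.pow_le_pow_right (by norm_num) he

theorem blk_content_lt (β B : ℕ) (cfg : ℕ → ℤ → ℕ) (t : ℕ) (z : ℤ)
    (hq : ∀ t z, cfg t z < 2 ^ β) : content (2 ^ β) B cfg t z < 2 ^ (B * β) := by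
  have h := Pool.Agent.Lib.MP_2eed13_lc.LCA.H35.num_lt (2 ^ β) (fun k => cfg t (z + k))
    (fun k => hq _ _) B
  have e : (2 : ℕ) ^ (B * β) = (2 ^ β) ^ B := by rw [← pow_mul, mul_comm]
  rw [e]
  exact h

/-- Splitting of three blocks with index. -/
theorem blk_split (M S c0 c1 c2 a0 a1 a2 : ℕ) (h0 : c0 < M) (h1 : c1 < M) (h2 : c2 < M)
    (g0 : a0 < S) (g1 : a1 < S) (g2 : a2 < S) :
    let x := (c0 + a0 * M) + (c1 + a1 * M) * (M * S) + (c2 + a2 * M) * ((M * S) * (M * S))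
    x / (M * S) % (M * S) = c1 + a1 * M ∧ (c1 + a1 * M) / M = a1 ∧ x % M = c0 ∧
      x / (M * S) % M = c1 ∧ x / ((M * S) * (M * S)) % M = c2 := by
  intro x
  have hM : 0 < M := by omega
  have hb : ∀ c a : ℕ, c < M → a < S → c + a * M < M * S := by
    intro c a hc ha
    calc c + a * M < M + a * M := by omega
      _ = (a + 1) * M := by ring
      _ ≤ S * M := Nat.mul_le_mul_right _ ha
      _ = M * S := mul_comm _ _
  have b0 := hb c0 a0 h0 g0
  have b1 := hb c1 a1 h1 g1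
  have b2 := hb c2 a2 h2 g2
  have hN : 0 < M * S := by omega
  have e1 : x / (M * S) = (c1 + a1 * M) + (c2 + a2 * M) * (M * S) := by
    have : x = (c0 + a0 * M) + ((c1 + a1 * M) + (c2 + a2 * M) * (M * S)) * (M * S) := by
      show (c0 + a0 * M) + (c1 + a1 * M) * (M * S) + (c2 + a2 * M) * ((M * S) * (M * S)) = _
      ring
    rw [this, Nat.add_mul_div_right _ _ hN, Nat.div_eq_of_lt b0, zero_add]
  refine ⟨?_, ?_, ?_, ?_, ?_⟩
  · rw [e1, Nat.add_mul_mod_self_right, Nat.mod_eq_of_lt b1]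
  · rw [Nat.add_mul_div_right _ _ hM, Nat.div_eq_of_lt h1, zero_add]
  · have : x = c0 + (a0 + (c1 + a1 * M) * S + (c2 + a2 * M) * (S * (M * S))) * M := by
      show (c0 + a0 * M) + (c1 + a1 * M) * (M * S) + (c2 + a2 * M) * ((M * S) * (M * S)) = _
      ring
    rw [this, Nat.add_mul_mod_self_right, Nat.mod_eq_of_lt h0]
  · rw [e1]
    have : (c1 + a1 * M) + (c2 + a2 * M) * (M * S) = c1 + (a1 + (c2 + a2 * M) * S) * M := by ring
    rw [this, Nat.add_mul_mod_self_right, Nat.mod_eq_of_lt h1]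
  · rw [← Nat.div_div_eq_div_mul, e1, Nat.add_mul_div_right _ _ hN, Nat.div_eq_of_lt b1, zero_add,
      Nat.add_mul_mod_self_right, Nat.mod_eq_of_lt h2]

/-- The block map on three blocks with index. -/
theorem blk_GA (C β T B I : ℕ) (adv : ℕ → ℕ → ℕ) (hC : 2 ^ (3 * (B * (β + 1))) ≤ C)
    (c0 c1 c2 a0 a1 a2 : ℕ) (h0 : c0 < 2 ^ (B * β)) (h1 : c1 < 2 ^ (B * β))
    (h2 : c2 < 2 ^ (B * β)) (g0 : a0 < 2 ^ B) (g1 : a1 < 2 ^ B) (g2 : a2 < 2 ^ B) :
    GA C β T B I adv ((c0 + a0 * 2 ^ (B * β)) + (c1 + a1 * 2 ^ (B * β)) * 2 ^ (B * (β + 1)) +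
      (c2 + a2 * 2 ^ (B * β)) * 2 ^ (2 * (B * (β + 1)))) =
    blockA C (powc 2 β C) T B adv (a1 / I * B) ((a1 % I - 1) * B)
      (c0 + c1 * 2 ^ (B * β) + c2 * 2 ^ (2 * (B * β))) + (a1 + I) % 2 ^ B * 2 ^ (B * β) := by
  have e1 : B * (β + 1) = B * β + B := by ring
  have p1 : powc 2 (B * (β + 1)) C = 2 ^ (B * (β + 1)) := blk_pow hC (by omega)
  have p2 : powc 2 (B * β) C = 2 ^ (B * β) := blk_pow hC (by omega)
  have p3 : powc 2 (2 * (B * (β + 1))) C = 2 ^ (2 * (B * (β + 1))) := blk_pow hC (by omega)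
  have p4 : powc 2 (2 * (B * β)) C = 2 ^ (2 * (B * β)) := blk_pow hC (by omega)
  have p5 : powc 2 B C = 2 ^ B := blk_pow hC (by omega)
  have n1 : (2 : ℕ) ^ (B * (β + 1)) = 2 ^ (B * β) * 2 ^ B := by rw [e1, pow_add]
  have n2 : (2 : ℕ) ^ (2 * (B * (β + 1))) = (2 ^ (B * β) * 2 ^ B) * (2 ^ (B * β) * 2 ^ B) := by
    rw [two_mul, pow_add, n1]
  obtain ⟨s1, s2, s3, s4, s5⟩ := blk_split (2 ^ (B * β)) (2 ^ B) c0 c1 c2 a0 a1 a2 h0 h1 h2 g0 g1 g2
  unfold GA
  rw [p1, p2, p3, p4, p5, n1, n2, s1, s2, s3, s4, s5]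

/-- A block with its index. -/
theorem blk_lt {c a M B : ℕ} (hc : c < M) (ha : a < 2 ^ B) : c + a * M < M * 2 ^ B := by
  calc c + a * M < M + a * M := by omega
    _ = (a + 1) * M := by ring
    _ ≤ 2 ^ B * M := Nat.mul_le_mul_right _ ha
    _ = M * 2 ^ B := mul_comm _ _

theorem blk_leaf (C β s0 s1 c B J n i : ℕ) (hC : 2 ^ (3 * (B * (β + 1))) ≤ C)
    (cfg : ℕ → ℤ → ℕ)
    (h0 : ∀ z : ℤ, cfg 0 z = if 1 ≤ z ∧ z ≤ n then (if z = c then s1 else s0) else 0) :
    LA C β s0 s1 c B J n i =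
      content (2 ^ β) B cfg 0 (((i : ℤ) - J) * B) + i % 2 ^ B * 2 ^ (B * β) := by
  have e1 : B * (β + 1) = B * β + B := by ring
  have hb : β ≤ 3 * (B * (β + 1)) ∨ B = 0 := by
    rcases Nat.eq_zero_or_pos B with h | h
    · exact Or.inr h
    · left
      have : 1 * β ≤ B * β := Nat.mul_le_mul_right _ h
      omega
  have p2 : powc 2 (B * β) C = 2 ^ (B * β) := blk_pow hC (by omega)
  have p5 : powc 2 B C = 2 ^ B := blk_pow hC (by omega)
  unfold LA
  rw [p2, p5]
  congr 1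
  unfold content
  refine sum_congr rfl fun k hk => ?_
  have hk' : k < B := mem_range.1 hk
  have p1 : powc 2 β C = 2 ^ β := blk_pow hC (by rcases hb with h | h <;> omega)
  have hp : powc (2 ^ β) k C = (2 ^ β) ^ k := by
    refine blk_powq hC ?_
    have h1 : β * k ≤ β * B := Nat.mul_le_mul_left _ hk'.le
    have h2 : B * β = β * B := mul_comm _ _
    omega
  rw [p1, hp, h0]
  congr 1
  have e : ((i : ℤ) - J) * B + k = (i * B + k : ℕ) - (J * B : ℕ) := by
    push_cast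
    ring
  rw [e]
  refine if_congr ?_ (if_congr ?_ rfl rfl) rfl
  · constructor
    · rintro ⟨h1, h2⟩
      constructor <;> omega
    · rintro ⟨h1, h2⟩
      constructor <;> omega
  · constructor
    · intro h1
      omega
    · intro h1
      omega

theorem blk_tval (h : RowAStatement) (β T s0 s1 c B J n C I : ℕ) (adv : ℕ → ℕ → ℕ)
    (cfg : ℕ → ℤ → ℕ) (hβ : 1 ≤ β) (hB : 2 ≤ B) (hI : 2 * J + 2 ≤ I)
    (hJ : (J + 1) * I ≤ 2 ^ B) (hC : 2 ^ (3 * (B * (β + 1))) ≤ C)
    (hq : ∀ t z, cfg t z < 2 ^ β)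
    (hr : ∀ (t : ℕ) (z : ℤ) (y : ℕ), z + J * B = y → cfg (t + 1) z = ruleA (2 ^ β) T
      (cfg t (z - 1)) (cfg t z) (cfg t (z + 1)) (adv t y))
    (h0 : ∀ z : ℤ, cfg 0 z = if 1 ≤ z ∧ z ≤ n then (if z = c then s1 else s0) else 0) :
    ∀ j i : ℕ, j ≤ J → j ≤ i → i + j ≤ 2 * J →
      tval (B * (β + 1)) (GA C β T B I adv) (LA C β s0 s1 c B J n) j i =
      content (2 ^ β) B cfg (j * B) (((i : ℤ) - J) * B) + (j * I + i) * 2 ^ (B * β) := by
  have hidx : ∀ j i : ℕ, j ≤ J → i < I → j * I + i < 2 ^ B := by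
    intro j i hj hi
    calc j * I + i < j * I + I := by omega
      _ = (j + 1) * I := by ring
      _ ≤ (J + 1) * I := Nat.mul_le_mul_right _ (by omega)
      _ ≤ 2 ^ B := hJ
  have e10 : B * (β + 1) = B * β + B := by ring
  intro j
  induction j with
  | zero =>
    intro i _ _ hi
    have h1 := hidx 0 i (Nat.zero_le _) (by omega)
    rw [zero_mul, zero_add] at h1
    rw [Nat.zero_mul, Nat.zero_mul, zero_add]
    show LA C β s0 s1 c B J n i = _
    rw [blk_leaf C β s0 s1 c B J n i hC cfg h0, Nat.mod_eq_of_lt h1]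
  | succ j ih =>
    intro i hj hi hij
    show GA C β T B I adv _ = _
    rw [ih (i - 1) (by omega) (by omega) (by omega), ih i (by omega) (by omega) (by omega),
      ih (i + 1) (by omega) (by omega) (by omega),
      blk_GA C β T B I adv hC _ _ _ _ _ _ (blk_content_lt β B cfg _ _ hq)
        (blk_content_lt β B cfg _ _ hq) (blk_content_lt β B cfg _ _ hq)
        (hidx j (i - 1) (by omega) (by omega)) (hidx j i (by omega) (by omega))
        (hidx j (i + 1) (by omega) (by omega))]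
    have e1 : (((i - 1 : ℕ) : ℤ) - J) * B = (((i : ℤ) - J) * B - B) := by
      rw [Nat.cast_sub (by omega)]
      push_cast
      ring
    have e2 : (((i + 1 : ℕ) : ℤ) - J) * B = (((i : ℤ) - J) * B - B) + (B : ℤ) + (B : ℤ) := by
      push_cast
      ring
    have e3 : ((i : ℤ) - J) * B = (((i : ℤ) - J) * B - B) + (B : ℤ) := by ring
    have e4 : (2 : ℕ) ^ (B * β) = (2 ^ β) ^ B := by rw [← pow_mul, mul_comm]
    have e5 : (2 : ℕ) ^ (2 * (B * β)) = (2 ^ β) ^ B * (2 ^ β) ^ B := by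
      rw [← pow_mul, ← pow_add]
      congr 1
      ring
    have e6 : content (2 ^ β) B cfg (j * B) (((i - 1 : ℕ) - J) * B) +
        content (2 ^ β) B cfg (j * B) (((i : ℤ) - J) * B) * 2 ^ (B * β) +
        content (2 ^ β) B cfg (j * B) (((i + 1 : ℕ) - J) * B) * 2 ^ (2 * (B * β)) =
        content (2 ^ β) (3 * B) cfg (j * B) (((i : ℤ) - J) * B - B) := by
      have e7 : 3 * B = B + (B + B) := by ring
      rw [e7, content_add, content_add, e1, e2, e4, e5]
      have e8 : content (2 ^ β) B cfg (j * B) (((i : ℤ) - J) * B - B + B) =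
          content (2 ^ β) B cfg (j * B) (((i : ℤ) - J) * B) := by
        rw [← e3]
      rw [e8]
      ring
    rw [e6]
    have hI0 : 0 < I := by omega
    have d1 : (j * I + i) / I = j := by
      rw [add_comm, Nat.add_mul_div_right _ _ hI0, Nat.div_eq_of_lt (by omega), zero_add]
    have d2 : (j * I + i) % I = i := by
      rw [add_comm, Nat.add_mul_mod_self_right, Nat.mod_eq_of_lt (by omega)]
    have d3 : (j * I + i + I) % 2 ^ B = (j + 1) * I + i := by
      have : j * I + i + I = (j + 1) * I + i := by ring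
      rw [this, Nat.mod_eq_of_lt (hidx (j + 1) i hj (by omega))]
    have p1 : powc 2 β C = 2 ^ β := by
      refine blk_pow hC ?_
      have : 1 * β ≤ B * β := Nat.mul_le_mul_right _ (by omega)
      omega
    rw [d1, d2, d3, p1]
    have h3 : (2 : ℕ) ^ (3 * (B * β)) ≤ C :=
      le_trans (Nat.pow_le_pow_right (by norm_num) (by omega)) hC
    have hh := h β T B C adv hβ (by omega) h3 cfg ((i - 1) * B) (((i : ℤ) - J) * B - B) (j * B) hq
      (fun t i' => hr (j * B + t) _ _ (by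
        rw [Nat.cast_add, Nat.cast_mul, Nat.cast_sub (by omega)]
        push_cast
        ring))
    have hc : content (2 ^ β) (3 * B) cfg (j * B) (((i : ℤ) - J) * B - B) =
      ∑ k ∈ range (3 * B), cfg (j * B) ((((i : ℤ) - J) * B - B) + k) * (2 ^ β) ^ k := rfl
    rw [hc, hh]
    have e9 : (j + 1) * B = j * B + B := by ring
    rw [e9]
    congr 1
    unfold content
    refine sum_congr rfl fun k _ => ?_
    rw [← e3]

/-- BLOCKA -/
theorem blockA_of (h : RowAStatement) : BlockAStatement := by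
  intro β T s0 s1 c B J n C I adv cfg hβ hB hJ1 hs0 hs1 hI hJ hC hq hr h0
  have e1 : B * (β + 1) = B * β + B := by ring
  have n1 : (2 : ℕ) ^ (B * (β + 1)) = 2 ^ (B * β) * 2 ^ B := by rw [e1, pow_add]
  have p2 : powc 2 (B * β) C = 2 ^ (B * β) := blk_pow hC (by omega)
  have p5 : powc 2 B C = 2 ^ B := blk_pow hC (by omega)
  have h2B : 0 < 2 ^ B := by positivity
  have p1 : powc 2 β C = 2 ^ β := by
    refine blk_pow hC ?_
    have : 1 * β ≤ B * β := Nat.mul_le_mul_right _ (by omega)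
    omega
  refine ⟨fun u => ?_, fun i => ?_, ?_⟩
  · unfold GA
    rw [p2, p5, n1]
    refine blk_lt ?_ (Nat.mod_lt _ h2B)
    unfold blockA
    rw [p1]
    have p6 : powc (2 ^ β) B C = (2 ^ β) ^ B := by
      refine blk_powq hC ?_
      have h2 : B * β = β * B := mul_comm _ _
      omega
    have e4 : (2 : ℕ) ^ (B * β) = (2 ^ β) ^ B := by rw [← pow_mul, mul_comm]
    rw [p6, e4]
    exact Nat.mod_lt _ (by positivity)
  · rw [blk_leaf C β s0 s1 c B J n i hC cfg h0, n1]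
    exact blk_lt (blk_content_lt β B cfg _ _ hq) (Nat.mod_lt _ h2B)
  · rw [blk_tval h β T s0 s1 c B J n C I adv cfg hβ hB hI hJ hC hq hr h0 J J le_rfl le_rfl
      (by omega), sub_self, zero_mul]
    have hd := Pool.Agent.Lib.MP_2eed13_lc.LCA.H39.dig_content β B hβ hB cfg (J * B) hq
    rw [← hd]
    unfold dig
    have e3 : (J * I + J) * 2 ^ (B * β) = (2 * ((J * I + J) * 2 ^ (B * β - β - 1))) * 2 ^ β := by
      have hle : β + 1 ≤ B * β := by
        have : 2 * β ≤ B * β := Nat.mul_le_mul_right _ hB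
        omega
      have e5 : B * β = (B * β - β - 1) + 1 + β := by omega
      conv_lhs => rw [e5]
      rw [pow_add, pow_add]
      ring
    rw [e3, Nat.add_mul_div_right _ _ (by positivity), Nat.add_mul_mod_self_left]

end Pool.Agent.Lib.MP_4c536a_lc.BG
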