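import Pool.Agent.Lib.MP_2eed13_lc.LCA.Base

/-!
# Bounded-grid frontier languages with few free cells (MP_4c536a_lc): definitions and statements

Paper: `Paper.md` in this folder.  Everything is built on the library `MP_2eed13_lc.LCA`.
-/

set_option autoImplicit false

namespace Pool.Agent.Lib.MP_4c536a_lc.BG

open Finset
open Pool.Agent.Lib.MP_2eed13_lc.LCA

/-! ## 1. Catalytic evaluation with an arbitrary block map `G` and arbitrary leaves `L` -/

/-- The multilinear extension of bit `k` of `G` at the registers. -/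
def extG (C p b : ℕ) (G : ℕ → ℕ) (r R k : ℕ) : ℕ :=
  (∑ u ∈ range (powc 2 (3 * b) C), dig 2 (G u) k * wtN p b r R u) % p

/-- The operations on the number `R` coding the registers, by tag. -/
def opG (C p b : ℕ) (G L : ℕ → ℕ) (tag r s i a R : ℕ) : ℕ :=
  if tag = 0 then addN C p b r s (fun k => dig 2 (L i) k) R
  else if tag = 1 then R
  else if tag = 2 then scaleN C p b r a R
  else if tag = 3 then addN C p b r (1 - s) (fun k => extG C p b G r R k) R
  else scaleN C p b r (powMod p a (p - 2)) R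

/-- The operation at time `t`. -/
def actG (C p b J : ℕ) (G L : ℕ → ℕ) (t R : ℕ) : ℕ :=
  opG C p b G L (desc (9 * (p - 1)) J t).1 (desc (9 * (p - 1)) J t).2.1
    (desc (9 * (p - 1)) J t).2.2.1 (desc (9 * (p - 1)) J t).2.2.2.1
    (desc (9 * (p - 1)) J t).2.2.2.2 R

/-- The whole evaluation. -/
def mainG (C p b J : ℕ) (G L : ℕ → ℕ) : ℕ :=
  runTo (actG C p b J G L) (powc (9 * (p - 1)) J C) 0

/-- EVALG: `mainG` computes the bits of the root of the tree. -/
def EvalGStatement : Prop := ∀ (C p b J k : ℕ) (G L : ℕ → ℕ), p.Prime → 3 * b + 1 < p → k < b →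
  2 ^ (3 * b) ≤ C → p ^ (4 * b) ≤ C → (9 * (p - 1)) ^ J ≤ C → (∀ u, G u < 2 ^ b) →
  (∀ i, L i < 2 ^ b) → dig p (mainG C p b J G L) k = dig 2 (tval b G L J J) k

/-! ## 2. Block maps with advice -/

/-- The local rule coded by `T`, with one more argument `g` (the advice). -/
def ruleA (q T l c r g : ℕ) : ℕ := dig q T (((l * q + c) * q + r) * q + g)

/-- One step on a row of `w` states; `g i` is the advice at place `i` of the row. -/
def rowA (C q T w : ℕ) (g : ℕ → ℕ) (x : ℕ) : ℕ :=
  ∑ i ∈ range w, ruleA q T (if i = 0 then 0 else dig q x (i - 1)) (dig q x i) (dig q x (i + 1))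
    (g i) * powc q i C

/-- `B` steps on a row of `3 B` states that starts at time `t0` at place `z0`; middle part. -/
def blockA (C q T B : ℕ) (adv : ℕ → ℕ → ℕ) (t0 z0 x : ℕ) : ℕ :=
  runTo (fun t y => rowA C q T (3 * B) (fun i => adv (t0 + t) (z0 + i)) y) B x
    / powc q B C % powc q B C

/-- ROWA -/
def RowAStatement : Prop := ∀ (β T B C : ℕ) (adv : ℕ → ℕ → ℕ), 1 ≤ β → 1 ≤ B →
  2 ^ (3 * (B * β)) ≤ C → ∀ (cfg : ℕ → ℤ → ℕ) (z0 : ℕ) (z : ℤ) (t0 : ℕ),
  (∀ t z, cfg t z < 2 ^ β) →
  (∀ t i : ℕ, cfg (t0 + t + 1) (z + i) = ruleA (2 ^ β) T (cfg (t0 + t) (z + i - 1))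
    (cfg (t0 + t) (z + i)) (cfg (t0 + t) (z + i + 1)) (adv (t0 + t) (z0 + i))) →
  blockA C (2 ^ β) T B adv t0 z0 (∑ k ∈ range (3 * B), cfg t0 (z + k) * (2 ^ β) ^ k) =
    ∑ k ∈ range B, cfg (t0 + B) (z + B + k) * (2 ^ β) ^ k

/-- The block map: a block is `content + index * 2 ^ (B β)`, a number `< 2 ^ (B (β + 1))`; the index
of the block number `i` of level `j` is `j * I + i`; `i = J` is the block of the places
`0, …, B - 1`.  The argument consists of three blocks. -/
def GA (C β T B I : ℕ) (adv : ℕ → ℕ → ℕ) (x : ℕ) : ℕ :=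
  blockA C (powc 2 β C) T B adv
    (x / powc 2 (B * (β + 1)) C % powc 2 (B * (β + 1)) C / powc 2 (B * β) C / I * B)
    ((x / powc 2 (B * (β + 1)) C % powc 2 (B * (β + 1)) C / powc 2 (B * β) C % I - 1) * B)
    (x % powc 2 (B * β) C + x / powc 2 (B * (β + 1)) C % powc 2 (B * β) C * powc 2 (B * β) C +
      x / powc 2 (2 * (B * (β + 1))) C % powc 2 (B * β) C * powc 2 (2 * (B * β)) C) +
  (x / powc 2 (B * (β + 1)) C % powc 2 (B * (β + 1)) C / powc 2 (B * β) C + I) % powc 2 B C
    * powc 2 (B * β) C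

/-- The leaves: the initial content of block number `i` (cells `1, …, n` in state `s0`, the marked
cell `c` in state `s1`), with the index. -/
def LA (C β s0 s1 c B J n i : ℕ) : ℕ :=
  (∑ k ∈ range B, (if J * B + 1 ≤ i * B + k ∧ i * B + k ≤ n + J * B then
      (if i * B + k = c + J * B then s1 else s0) else 0) * powc (powc 2 β C) k C) +
    i % powc 2 B C * powc 2 (B * β) C

/-- BLOCKA: the flag (bit `0`) of cell `1` at time `J B` is bit `β` of the root.  The advice is
indexed by `z + J B` instead of `z`. -/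
def BlockAStatement : Prop := ∀ (β T s0 s1 c B J n C I : ℕ) (adv : ℕ → ℕ → ℕ)
  (cfg : ℕ → ℤ → ℕ), 1 ≤ β → 2 ≤ B → 1 ≤ J → s0 < 2 ^ β → s1 < 2 ^ β → 2 * J + 2 ≤ I →
  (J + 1) * I ≤ 2 ^ B → 2 ^ (3 * (B * (β + 1))) ≤ C →
  (∀ t z, cfg t z < 2 ^ β) →
  (∀ (t : ℕ) (z : ℤ) (y : ℕ), z + J * B = y → cfg (t + 1) z = ruleA (2 ^ β) T (cfg t (z - 1))
    (cfg t z) (cfg t (z + 1)) (adv t y)) →
  (∀ z : ℤ, cfg 0 z = if 1 ≤ z ∧ z ≤ n then (if z = c then s1 else s0) else 0) →
  (∀ u, GA C β T B I adv u < 2 ^ (B * (β + 1))) ∧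
  (∀ i, LA C β s0 s1 c B J n i < 2 ^ (B * (β + 1))) ∧
  dig 2 (tval (B * (β + 1)) (GA C β T B I adv) (LA C β s0 s1 c B J n) J J) β = cfg (J * B) 1 % 2

/-! ## 3. Advice coded by numbers -/

/-- The advice coded by the number `a`: entry number `k` of `a` in base `E` is
`(t * W + z) * q + g`, for: advice `g` at time `t` and place `z`. -/
def advN (q E K W a t z : ℕ) : ℕ :=
  (∑ k ∈ range K, if dig E a k / q = t * W + z then dig E a k % q else 0) % q

/-- ADV: every advice with at most `K` entries has a code. -/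
def AdvStatement : Prop := ∀ (q E K W : ℕ) (S : Finset (ℕ × ℕ)) (g : ℕ → ℕ → ℕ), 1 ≤ q →
  1 ≤ E → S.card ≤ K → (∀ x ∈ S, x.2 < W ∧ (x.1 * W + x.2 + 1) * q ≤ E ∧ g x.1 x.2 < q) →
  ∃ a, a < E ^ K ∧ ∀ t z, z < W → advN q E K W a t z = if (t, z) ∈ S then g t z else 0

/-! ## 4. Arrays with advice -/

/-- The run of an array with advice: cells `1, …, n`, all in state `s0` except the cell `c`, which
is in state `s1`; `adv t z` is the advice for cell `z` in the step from time `t` to `t + 1`. -/
def runA {Q A : Type} (δ : Option Q → Q → Option Q → Option A → Q) (s0 s1 : Q) (n c : ℕ)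
    (adv : ℕ → ℤ → Option A) : ℕ → ℤ → Option Q
  | 0, z => if 1 ≤ z ∧ z ≤ n then some (if z = c then s1 else s0) else none
  | t + 1, z => (runA δ s0 s1 n c adv t z).map fun q =>
      δ (runA δ s0 s1 n c adv t (z - 1)) q (runA δ s0 s1 n c adv t (z + 1)) (adv t z)

/-- CODEA: arrays with advice are coded by numbers; bit `0` of the code tells whether the state is
in `F`. -/
def CodeAStatement : Prop := ∀ (Q A : Type) (_ : Finite Q) (_ : Finite A)
  (δ : Option Q → Q → Option Q → Option A → Q) (s0 s1 : Q) (F : Set Q),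
  ∃ (β T k0 k1 : ℕ) (dec : ℕ → Option A) (enc : A → ℕ), 1 ≤ β ∧ k0 < 2 ^ β ∧ k1 < 2 ^ β ∧
    dec 0 = none ∧ (∀ a, enc a < 2 ^ β ∧ dec (enc a) = some a) ∧
    ∀ (n c : ℕ) (g : ℕ → ℤ → ℕ), 1 ≤ n → (∀ t z, g t z < 2 ^ β) → ∃ cfg : ℕ → ℤ → ℕ,
      (∀ t z, cfg t z < 2 ^ β) ∧
      (∀ t z, cfg (t + 1) z = ruleA (2 ^ β) T (cfg t (z - 1)) (cfg t z) (cfg t (z + 1)) (g t z)) ∧
      (∀ z : ℤ, cfg 0 z = if 1 ≤ z ∧ z ≤ n then (if z = c then k1 else k0) else 0) ∧
      ∀ t, (cfg t 1 % 2 = 1 ↔
        ∃ q ∈ F, runA δ s0 s1 n c (fun t z => dec (g t z)) t 1 = some q)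

/-! ## 5. Pictures -/

/-- Entry `(i, j)` of the bordered version of the picture `p` with rows `1, …, m` (from the top) and
columns `1, …, n` (from the left); `none` is the border symbol. -/
def bord {Γ : Type} (m n : ℕ) (p : ℕ → ℕ → Γ) (i j : ℕ) : Option Γ :=
  if 1 ≤ i ∧ i ≤ m ∧ 1 ≤ j ∧ j ≤ n then some (p i j) else none

/-- All `2 × 2` blocks of the bordered version are in `Θ` (top left, top right, bottom left, bottom
right). -/
def InLocal {Γ : Type} (Θ : Option Γ → Option Γ → Option Γ → Option Γ → Prop) (m n : ℕ)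
    (p : ℕ → ℕ → Γ) : Prop :=
  ∀ i ≤ m, ∀ j ≤ n, Θ (bord m n p i j) (bord m n p i (j + 1)) (bord m n p (i + 1) j)
    (bord m n p (i + 1) (j + 1))

/-- The cell `(i, j)` is free: another symbol fits into the block whose top left corner it is. -/
def IsFree {Γ : Type} (Θ : Option Γ → Option Γ → Option Γ → Option Γ → Prop) (m n : ℕ)
    (p : ℕ → ℕ → Γ) (i j : ℕ) : Prop :=
  ∃ γ, γ ≠ p i j ∧ Θ (some γ) (bord m n p i (j + 1)) (bord m n p (i + 1) j)
    (bord m n p (i + 1) (j + 1))

/-! ## 6. The array that checks pictures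

The cell `(u, v)` of a picture with `c` columns and `m` rows (`u` counted from the right, `v` from
below, both from `0`) is computed in the step from time `u + v` to `u + v + 1` by the cell
`c + v - u` of an array with `n = m + c - 1` cells. -/

/-- States: the symbol of the current step with two flags (leftmost column, top row), the symbol of
the previous step, the mark of the start, the flag of acceptance. -/
abbrev PState (Γ : Type) : Type := Option (Γ × Bool × Bool) × Option Γ × Bool × Bool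

open Classical in
/-- The symbol put into a cell with right neighbour `x`, lower neighbour `y`, diagonal neighbour
`w`, and advice `a`. -/
noncomputable def pick {Γ : Type} (Θ : Option Γ → Option Γ → Option Γ → Option Γ → Prop)
    (x y w a : Option Γ) : Option Γ :=
  match a with
  | some g => if Θ (some g) x y w then some g else none
  | none => if h : ∃! g, Θ (some g) x y w then some h.choose else none

open Classical in
/-- The same with the checks at the left and at the upper border. -/
noncomputable def newSym {Γ : Type} (Θ : Option Γ → Option Γ → Option Γ → Option Γ → Prop)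
    (x y w a : Option Γ) (lft top : Bool) : Option Γ :=
  (pick Θ x y w a).bind fun g =>
    if (lft = true → Θ none (some g) none y) ∧ (top = true → Θ none none (some g) x) ∧
      (lft = true → top = true → Θ none none none (some g)) then some g else none

/-- The symbol just computed by a neighbour. -/
def symOf {Γ : Type} (q : Option (PState Γ)) : Option Γ := q.bind fun s => s.1.map fun g => g.1

/-- The flag `leftmost column` for a cell whose left neighbour is `q`. -/
def lftOf {Γ : Type} (q : Option (PState Γ)) : Bool :=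
  match q with
  | none => true
  | some s => (s.1.map fun g => g.2.1).getD false

/-- The flag `top row` for a cell whose right neighbour is `q`. -/
def topOf {Γ : Type} (q : Option (PState Γ)) : Bool :=
  match q with
  | none => true
  | some s => (s.1.map fun g => g.2.2).getD false

/-- The right neighbour is in the leftmost column. -/
def lftSym {Γ : Type} (q : Option (PState Γ)) : Bool :=
  match q with
  | none => false
  | some s => (s.1.map fun g => g.2.1).getD false

/-- The left neighbour in the array is in the top row. -/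
def topSym {Γ : Type} (q : Option (PState Γ)) : Bool :=
  match q with
  | none => false
  | some s => (s.1.map fun g => g.2.2).getD false

/-- The flag of acceptance. -/
def accOf {Γ : Type} (q : Option (PState Γ)) : Bool :=
  match q with
  | none => false
  | some s => s.2.2.2

open Classical in
/-- The new symbol of an array cell. -/
noncomputable def newCur {Γ : Type} (Θ : Option Γ → Option Γ → Option Γ → Option Γ → Prop)
    (l : Option (PState Γ)) (s : PState Γ) (r : Option (PState Γ)) (a : Option Γ) :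
    Option (Γ × Bool × Bool) :=
  if s.2.2.1 = true ∨ (((symOf r).isSome = true ∨ (symOf l).isSome = true) ∧
      (s.2.1.isSome = true ↔ ((symOf r).isSome = true ∧ (symOf l).isSome = true)) ∧
      lftSym r = false ∧ topSym l = false) then
    (newSym Θ (symOf r) (symOf l) s.2.1 a (lftOf l) (topOf r)).map
      fun g => (g, lftOf l, topOf r)
  else none

/-- The transition function of the array that checks pictures. -/
noncomputable def pStep {Γ : Type} (Θ : Option Γ → Option Γ → Option Γ → Option Γ → Prop)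
    (l : Option (PState Γ)) (s : PState Γ) (r : Option (PState Γ)) (a : Option Γ) : PState Γ :=
  (newCur Θ l s r a, s.1.map fun g => g.1, false,
    s.2.2.2 || accOf l || accOf r ||
      ((newCur Θ l s r a).map fun g => g.2.1 && g.2.2).getD false)

/-- Initial states. -/
def st0 (Γ : Type) : PState Γ := (none, none, false, false)
/-- The marked cell. -/
def st1 (Γ : Type) : PState Γ := (none, none, true, false)

/-- The symbols of a picture with `c` columns and `m` rows, computed from the lower right corner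
with advice. -/
noncomputable def pp {Γ : Type} (Θ : Option Γ → Option Γ → Option Γ → Option Γ → Prop) (c m : ℕ)
    (adv : ℕ → ℕ → Option Γ) : ℕ → ℕ → Option Γ
  | 0, 0 => newSym Θ none none none (adv 0 0) (decide (c = 1)) (decide (m = 1))
  | u + 1, 0 => if u + 1 < c ∧ (pp Θ c m adv u 0).isSome = true then
      newSym Θ (pp Θ c m adv u 0) none none (adv (u + 1) 0) (decide (c = u + 2)) (decide (m = 1))
      else none
  | 0, v + 1 => if v + 1 < m ∧ (pp Θ c m adv 0 v).isSome = true then
      newSym Θ none (pp Θ c m adv 0 v) none (adv 0 (v + 1)) (decide (c = 1)) (decide (m = v + 2))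
      else none
  | u + 1, v + 1 => if u + 1 < c ∧ v + 1 < m ∧ (pp Θ c m adv u (v + 1)).isSome = true ∧
        (pp Θ c m adv (u + 1) v).isSome = true then
      newSym Θ (pp Θ c m adv u (v + 1)) (pp Θ c m adv (u + 1) v) (pp Θ c m adv u v)
        (adv (u + 1) (v + 1)) (decide (c = u + 2)) (decide (m = v + 2))
      else none
  termination_by u v => (u, v)

/-- SIM: the array computes `pp`, and accepts iff the last symbol exists. -/
def SimStatement : Prop := ∀ (Γ : Type) (Θ : Option Γ → Option Γ → Option Γ → Option Γ → Prop)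
  (c m n : ℕ) (adv : ℕ → ℤ → Option Γ) (t : ℕ), 1 ≤ c → 1 ≤ m → n + 1 = m + c → 2 * n + 2 ≤ t →
  ((∃ q : PState Γ, q.2.2.2 = true ∧ runA (pStep Θ) (st0 Γ) (st1 Γ) n c adv t 1 = some q) ↔
    (pp Θ c m (fun u v => adv (u + v) ((c : ℤ) + v - u)) (c - 1) (m - 1)).isSome = true)

/-- PIC: `pp` and pictures. -/
def PicStatement : Prop := ∀ (Γ : Type) (Θ : Option Γ → Option Γ → Option Γ → Option Γ → Prop)
  (c m : ℕ), 1 ≤ c → 1 ≤ m →
  (∀ adv : ℕ → ℕ → Option Γ, (pp Θ c m adv (c - 1) (m - 1)).isSome = true →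
    ∃ p : ℕ → ℕ → Γ, InLocal Θ m c p) ∧
  (∀ (p : ℕ → ℕ → Γ) (adv : ℕ → ℕ → Option Γ), InLocal Θ m c p →
    (∀ u v, u < c → v < m → (IsFree Θ m c p (m - v) (c - u) → adv u v = some (p (m - v) (c - u))) ∧
      (¬ IsFree Θ m c p (m - v) (c - u) → adv u v = none ∨
        adv u v = some (p (m - v) (c - u)))) →
    (pp Θ c m adv (c - 1) (m - 1)).isSome = true)

/-! ## 7. The diagonal function -/

/-- The allowed number of free cells. -/
def Kn (n : ℕ) : ℕ := n / (8 * (Nat.log 2 n + 1))

/-- A bound for the places (shifted by `J B`). -/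
def Wz (n : ℕ) : ℕ := (2 * n + 3) * (n + 1)

/-- The outcome for the code `e = (β - 1, T, s0, s1)`, marked cell `c`, advice `a`. -/
def outP (C n e c a : ℕ) : ℕ :=
  dig (primeFor (3 * (width n * (e.unpair.1 + 1 + 1)) + 2))
    (mainG C (primeFor (3 * (width n * (e.unpair.1 + 1 + 1)) + 2)) (width n * (e.unpair.1 + 1 + 1))
      (width n)
      (GA C (e.unpair.1 + 1) e.unpair.2.unpair.1 (width n) (2 * width n + 2)
        (advN (powc 2 (e.unpair.1 + 1) C) (n * Wz n * powc 2 (e.unpair.1 + 1) C) (Kn n) (Wz n) a))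
      (LA C (e.unpair.1 + 1) e.unpair.2.unpair.2.unpair.1 e.unpair.2.unpair.2.unpair.2 c
        (width n) (width n) n))
    (e.unpair.1 + 1)

/-- The diagonal function. -/
def diagP (x : ℕ) : ℕ :=
  if (∑ c ∈ range (Nat.log 2 x), ∑ a ∈ range x,
    if outP x (Nat.log 2 x) (Nat.log 2 x).unpair.1 (c + 1) a = 1 then 1 else 0) = 0 then 1 else 0

/-- LSP: the diagonal function is of linear space. -/
def LSPStatement : Prop := LS diagP

/-- DIAGP (from BLOCKA, EVALG, CODEA, ADV, SIZE): the diagonal set against one array with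
advice. -/
def DiagPStatement : Prop := ∀ (Q A : Type) (_ : Finite Q) (_ : Finite A)
  (δ : Option Q → Q → Option Q → Option A → Q) (s0 s1 : Q) (F : Set Q) (N : ℕ),
  ∃ n, N ≤ n ∧ 1 ≤ n ∧ 2 * n + 2 ≤ width n * width n ∧
    (diagP (2 ^ n) = 0 → ∃ (c : ℕ) (adv : ℕ → ℤ → Option A), 1 ≤ c ∧ c ≤ n ∧
      ∃ q ∈ F, runA δ s0 s1 n c adv (width n * width n) 1 = some q) ∧
    (diagP (2 ^ n) ≠ 0 → ∀ (c : ℕ) (adv : ℕ → ℤ → Option A) (S : Finset (ℕ × ℕ)), 1 ≤ c →
      c ≤ n → S.card ≤ Kn n → (∀ x ∈ S, x.1 < n ∧ 1 ≤ x.2 ∧ x.2 ≤ n) →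
      (∀ (t : ℕ) (z : ℤ), (∀ x ∈ S, ¬ (x.1 = t ∧ (x.2 : ℤ) = z)) → adv t z = none) →
      ¬ ∃ q ∈ F, runA δ s0 s1 n c adv (width n * width n) 1 = some q)

/-! ## 8. Grammars -/

/-- A noncontracting grammar with terminal alphabet `σ`. -/
structure Grammar (σ : Type) where
  /-- nonterminals -/
  N : Type
  finN : Finite N
  /-- start symbol -/
  start : N
  /-- rules -/
  rules : Set (List (N ⊕ σ) × List (N ⊕ σ))
  finR : rules.Finite
  nonterm : ∀ r ∈ rules, ∃ A : N, Sum.inl A ∈ r.1
  noncontr : ∀ r ∈ rules, r.1.length ≤ r.2.length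

/-- One derivation step. -/
def Grammar.Step {σ : Type} (G : Grammar σ) (x y : List (G.N ⊕ σ)) : Prop :=
  ∃ r ∈ G.rules, ∃ u v, x = u ++ r.1 ++ v ∧ y = u ++ r.2 ++ v

/-- The language generated by `G`. -/
def Grammar.lang {σ : Type} (G : Grammar σ) : Set (List σ) :=
  {w | Relation.ReflTransGen G.Step [Sum.inl G.start] (w.map Sum.inr)}

/-- CSG: unary sets accepted by arrays are context-sensitive. -/
def CsgStatement : Prop := ∀ D : ℕ → Prop, Acceptable D →
  ∃ G : Grammar Unit, G.lang = {w | 0 < w.length ∧ D w.length}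

end Pool.Agent.Lib.MP_4c536a_lc.BG
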