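import Pool.Agent.Lib.MP_4c536a_lc.BG.Defs
import Pool.Agent.Lib.MP_2eed13_lc.LCA.H81.Eval
import Pool.Agent.Lib.MP_2eed13_lc.LCA.H81.Desc
import Pool.Agent.Lib.MP_2eed13_lc.LCA.H16.Cat
import Pool.Agent.Lib.MP_2eed13_lc.LCA.H27.Time
import Pool.Agent.Lib.MP_2eed13_lc.LCA.H78.Sum

/-! # Module EVALG: the evaluation on numbers for an arbitrary block map (helper65)

Adapted from `Lib/MP_2eed13_lc/LCA/H81/Ops.lean` and `H81/Eval.lean` (helper81). -/

set_option autoImplicit false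

namespace Pool.Agent.Lib.MP_4c536a_lc.BG.Evg

open Finset Pool.Agent.Lib.MP_2eed13_lc.LCA Pool.Agent.Lib.MP_4c536a_lc.BG
open Pool.Agent.Lib.MP_2eed13_lc.LCA.H81 (encR_dig prodMod_cast runTo_congr)

/-- The multilinear extension on numbers. -/
theorem extG_cast {p b C : ℕ} (hp : p.Prime) (hb : 1 ≤ b) (hC2 : 2 ^ (3 * b) ≤ C)
    (G : ℕ → ℕ) (R : ℕ → ℕ → ZMod p) (r k : ℕ) :
    ((extG C p b G r (encR p b R) k : ℕ) : ZMod p) = extA p b G (varA b r R) k := by
  have := Fact.mk hp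
  unfold extG extA wtN
  rw [ZMod.natCast_mod, Nat.cast_sum]
  have e : powc 2 (3 * b) C = 2 ^ (3 * b) := min_eq_left hC2
  rw [e]
  refine sum_congr rfl fun u _ => ?_
  rw [Nat.cast_mul, prodMod_cast]
  congr 1
  refine prod_congr rfl fun v hv => ?_
  have hreg : regOf r (v / b) < 4 := Nat.mod_lt _ (by norm_num)
  have hidx : regOf r (v / b) * b + v % b < 4 * b := by
    have h1 : v % b < b := Nat.mod_lt _ (by omega)
    have h2 : (regOf r (v / b) + 1) * b ≤ 4 * b := Nat.mul_le_mul_right _ hreg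
    nlinarith
  have hdiv : (regOf r (v / b) * b + v % b) / b = regOf r (v / b) := by
    rw [add_comm, Nat.add_mul_div_right _ _ (by omega : 0 < b),
      Nat.div_eq_of_lt (Nat.mod_lt _ (by omega)), zero_add]
  have hmod : (regOf r (v / b) * b + v % b) % b = v % b := by
    rw [add_comm, Nat.add_mul_mod_self_right, Nat.mod_mod]
  have hd := encR_dig (b := b) hp R (regOf r (v / b) * b + v % b) hidx
  rw [hdiv, hmod] at hd
  rw [hd]
  unfold varA
  split_ifs with h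
  · rw [ZMod.natCast_val, ZMod.cast_id]
  · rw [ZMod.natCast_mod, Nat.cast_sub, Nat.cast_add, ZMod.natCast_val, ZMod.cast_id,
      ZMod.natCast_self, zero_add, Nat.cast_one]
    exact (ZMod.val_lt _).le.trans (by omega)

/-- One step. -/
theorem actG_enc {p b C J : ℕ} (hp : p.Prime) (hb : 1 ≤ b) (hC1 : 2 ^ (3 * b) ≤ C)
    (hC2 : p ^ (4 * b) ≤ C) (G L : ℕ → ℕ) (t : ℕ) (ht : t < (9 * (p - 1)) ^ J)
    (R : ℕ → ℕ → ZMod p) :
    actG C p b J G L t (encR p b R) = encR p b (actA p b G L J t J 0 0 R) := by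
  obtain ⟨h1, h2, h3, h4, h5⟩ := H81.desc p b hp.two_le G L J t ht R
  rw [h5]
  unfold actG opG
  set x := desc (9 * (p - 1)) J t with hx
  have ops1 := H81.ops C 0 0 0 p b hp hb hC1 hC2 R x.2.1 x.2.2.1 1 h2 h3 le_rfl
    hp.one_lt
  by_cases c0 : x.1 = 0
  · rw [if_pos c0, if_pos c0]
    exact (ops1 (fun k => dig 2 (L x.2.2.2.1) k)).2.2.2.2.1
  rw [if_neg c0, if_neg c0]
  by_cases c1 : x.1 = 1
  · rw [if_pos c1, if_pos c1]
  rw [if_neg c1, if_neg c1]
  obtain ⟨ha1, ha2⟩ := h4 (by omega)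
  have ops2 := H81.ops C 0 0 0 p b hp hb hC1 hC2 R x.2.1 x.2.2.1 x.2.2.2.2 h2 h3 ha1 ha2
    (fun _ => 0)
  by_cases c2 : x.1 = 2
  · rw [if_pos c2, if_pos c2]
    exact ops2.2.2.1
  rw [if_neg c2, if_neg c2]
  by_cases c3 : x.1 = 3
  · rw [if_pos c3, if_pos c3]
    have h6 := ops1 (fun k => extG C p b G x.2.1 (encR p b R) k)
    rw [h6.2.2.2.2.2.1]
    have h7 : (fun k => ((extG C p b G x.2.1 (encR p b R) k : ℕ) : ZMod p)) =
        extA p b G (varA b x.2.1 R) := funext fun k => extG_cast hp hb hC1 G R x.2.1 k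
    rw [h7]
  rw [if_neg c3, if_neg c3]
  exact ops2.2.2.2.1

end Pool.Agent.Lib.MP_4c536a_lc.BG.Evg

namespace Pool.Agent.Lib.MP_4c536a_lc.BG

open Finset Pool.Agent.Lib.MP_2eed13_lc.LCA
open Pool.Agent.Lib.MP_2eed13_lc.LCA.H81 (encR_dig runTo_congr)

/-- Module EVALG. -/
theorem evalG : EvalGStatement := by
  intro C p b J k G L hp h3b hk hC1 hC2 hC3 hGlt hLlt
  have := Fact.mk hp
  have hp2 := hp.two_le
  have hb1 : 1 ≤ b := by omega
  have h0 : encR p b (fun _ _ => 0) = 0 := by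
    unfold encR
    simp
  have hmain : mainG C p b J G L =
      encR p b (addA 0 (sgn p 0) (bitsA p (tval b G L J J)) (fun _ _ => 0)) := by
    unfold mainG
    have hpow : powc (9 * (p - 1)) J C = (9 * (p - 1)) ^ J := min_eq_left hC3
    rw [hpow]
    have h6 := runTo_congr (fun t => actA p b G L J t J 0 0)
      (actG C p b J G L) (encR p b) ((9 * (p - 1)) ^ J)
      (fun t ht R => Evg.actG_enc hp hb1 hC1 hC2 G L t ht R) (fun _ _ => 0)
    rw [h0] at h6
    rw [h6, H27.time p b hp2 G L J J 0 0, H16.cat H78.sum p b hp h3b hb1 G L hGlt hLlt J J 0 0 (by norm_num)]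
  rw [hmain]
  rw [encR_dig hp _ k (by omega), Nat.div_eq_of_lt hk, Nat.mod_eq_of_lt hk]
  unfold addA sgn bitsA
  simp only [if_true, one_mul, zero_add]
  rw [ZMod.val_natCast, Nat.mod_eq_of_lt]
  have : dig 2 (tval b G L J J) k < 2 := Nat.mod_lt _ (by norm_num)
  omega

end Pool.Agent.Lib.MP_4c536a_lc.BG
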