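import Pool.Agent.Lib.MP_4c536a_lc.BG.Defs
import Pool.Agent.Lib.MP_2eed13_lc.LCA.H62.LsOp
import Pool.Agent.Lib.MP_2eed13_lc.LCA.H62.LsBlk
import Pool.Agent.Lib.MP_2eed13_lc.LCA.H62.LsMain
import Pool.Agent.Lib.MP_2eed13_lc.LCA.H62.LsDesc
import Pool.Agent.Lib.MP_2eed13_lc.LCA.H79.LSNum

/-!
# MP_4c536a_lc, row LSP: the diagonal function is of linear space
-/

set_option autoImplicit false

namespace Pool.Agent.Lib.MP_4c536a_lc.BG

open Finset
open Pool.Agent.Lib.MP_2eed13_lc.LCA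
open Pool.Agent.Lib.MP_2eed13_lc.LCA.H62
open Pool.Agent.Lib.MP_2eed13_lc.LCA.H79

section

variable {α : Type} [Denumerable α]

/-! ## 1. The evaluation -/

theorem lsp_extG {C p b r R k : α → ℕ} {G : α → ℕ → ℕ} (hC : LSf C) (hp : LSf p) (hb : LSf b)
    (hG : LSf fun x : α × ℕ => G x.1 x.2) (hr : LSf r) (hR : LSf R) (hk : LSf k)
    (h1 : ∀ x, 1 ≤ p x) :
    LSf fun x => extG (C x) (p x) (b x) (G x) (r x) (R x) (k x) := by
  unfold extG
  have p1 : LSf fun x : α × ℕ => x.1 := LSf.fst LSf.id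
  have p2 : LSf fun x : α × ℕ => x.2 := LSf.snd LSf.id
  refine (LSf.sum (LSf.powc (LSf.const 2) ((LSf.const 3).mul hb) hC) ?_).mod hp
  exact (LSf.dig (LSf.const 2) hG (hk.comp p1)).mul
    (ls_wtN (hp.comp p1) (hb.comp p1) (hr.comp p1) (hR.comp p1) p2 fun x => h1 x.1)

theorem lsp_opG {C p b tag r s i a R : α → ℕ} {G L : α → ℕ → ℕ} (hC : LSf C) (hp : LSf p)
    (hb : LSf b) (hG : LSf fun x : α × ℕ => G x.1 x.2) (hL : LSf fun x : α × ℕ => L x.1 x.2)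
    (htag : LSf tag) (hr : LSf r) (hs : LSf s) (hi : LSf i) (ha : LSf a) (hR : LSf R)
    (h1 : ∀ x, 1 ≤ p x) :
    LSf fun x => opG (C x) (p x) (b x) (G x) (L x) (tag x) (r x) (s x) (i x) (a x) (R x) := by
  have p1 : LSf fun x : α × ℕ => x.1 := LSf.fst LSf.id
  have p2 : LSf fun x : α × ℕ => x.2 := LSf.snd LSf.id
  have a0 : LSf fun x => addN (C x) (p x) (b x) (r x) (s x)
      (fun k => dig 2 (L x (i x)) k) (R x) := by
    refine ls_addN hC hp hb hr hs hR ?_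
    exact LSf.dig (LSf.const 2) ((hL.comp (LSf.id.pair hi)).comp p1) p2
  have a2 : LSf fun x => scaleN (C x) (p x) (b x) (r x) (a x) (R x) := ls_scaleN hC hp hb hr ha hR
  have a3 : LSf fun x => addN (C x) (p x) (b x) (r x) (1 - s x)
      (fun k => extG (C x) (p x) (b x) (G x) (r x) (R x) k) (R x) := by
    refine ls_addN hC hp hb hr ((LSf.const 1).sub hs) hR ?_
    exact lsp_extG (α := α × ℕ) (G := fun x => G x.1) (hC.comp p1) (hp.comp p1) (hb.comp p1)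
      (hG.comp ((LSf.fst (LSf.fst LSf.id)).pair (LSf.snd LSf.id)))
      (hr.comp p1) (hR.comp p1) p2 fun x => h1 x.1
  have a4 : LSf fun x => scaleN (C x) (p x) (b x) (r x) (powMod (p x) (a x) (p x - 2)) (R x) :=
    ls_scaleN hC hp hb hr (ls_powMod hp ha (hp.sub (LSf.const 2)) h1) hR
  unfold opG
  refine LSf.ite (P := fun x => tag x = 0) (LSp.eq htag (LSf.const 0)) a0 ?_
  refine LSf.ite (P := fun x => tag x = 1) (LSp.eq htag (LSf.const 1)) hR ?_
  refine LSf.ite (P := fun x => tag x = 2) (LSp.eq htag (LSf.const 2)) a2 ?_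
  exact LSf.ite (P := fun x => tag x = 3) (LSp.eq htag (LSf.const 3)) a3 a4

theorem lsp_op_le (C p b : ℕ) (G L : ℕ → ℕ) (tag r s i a R : ℕ) (hp : 1 ≤ p)
    (hR : R ≤ 4 * b * (p * C)) : opG C p b G L tag r s i a R ≤ 4 * b * (p * C) := by
  unfold opG
  split_ifs
  · exact addN_le _ _ _ _ _ _ _ hp
  · exact hR
  · exact scaleN_le _ _ _ _ _ _ hp
  · exact addN_le _ _ _ _ _ _ _ hp
  · exact scaleN_le _ _ _ _ _ _ hp

theorem lsp_run_le (C p b J : ℕ) (G L : ℕ → ℕ) (hp : 1 ≤ p) (N : ℕ) :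
    runTo (actG C p b J G L) N 0 ≤ 4 * b * (p * C) := by
  induction N with
  | zero => exact Nat.zero_le _
  | succ N ih => exact lsp_op_le _ _ _ _ _ _ _ _ _ _ _ hp ih

theorem lsp_mainG {C p b J : α → ℕ} {G L : α → ℕ → ℕ} (hC : LSf C) (hp : LSf p)
    (hb : LSf b) (hJ : LSf J) (hG : LSf fun x : α × ℕ => G x.1 x.2)
    (hL : LSf fun x : α × ℕ => L x.1 x.2) (h1 : ∀ x, 1 ≤ p x) :
    LSf fun x => mainG (C x) (p x) (b x) (J x) (G x) (L x) := by
  have p1 : LSf fun p : α × ℕ × ℕ => p.1 := LSf.fst LSf.id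
  have p2 : LSf fun p : α × ℕ × ℕ => p.2.1 := LSf.fst (LSf.snd LSf.id)
  have p3 : LSf fun p : α × ℕ × ℕ => p.2.2 := LSf.snd (LSf.snd LSf.id)
  have hM : LSf fun x => 9 * (p x - 1) := (LSf.const 9).mul hp.pred
  have hD : LSf fun y : α × ℕ × ℕ => desc (9 * (p y.1 - 1)) (J y.1) y.2.1 :=
    lsdesc _ _ _ _ (hM.comp p1) (hJ.comp p1) p2
  unfold mainG
  refine LSf.runTo (f := fun _ : α => (0 : ℕ))
    (g := fun x => actG (C x) (p x) (b x) (J x) (G x) (L x))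
    (B := fun x => 4 * b x * (p x * C x)) (LSf.const 0) ?_ (LSf.powc hM hJ hC)
    (((LSf.const 4).mul hb).mul (hp.mul hC)) ?_
  · exact lsp_opG (α := α × ℕ × ℕ) (G := fun y => G y.1) (L := fun y => L y.1) (hC.comp p1)
      (hp.comp p1) (hb.comp p1) (hG.comp ((LSf.fst (LSf.fst LSf.id)).pair (LSf.snd LSf.id)))
      (hL.comp ((LSf.fst (LSf.fst LSf.id)).pair (LSf.snd LSf.id))) hD.fst
      hD.snd.fst hD.snd.snd.fst hD.snd.snd.snd.fst hD.snd.snd.snd.snd p3 (fun y => h1 y.1)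
  · intro x N _
    exact lsp_run_le _ _ _ _ _ _ (h1 x) N

/-! ## 2. The block map and the leaves -/

theorem lsp_ruleA {q T l c r g : α → ℕ} (hq : LSf q) (hT : LSf T)
    (hl : LSf l) (hc : LSf c) (hr : LSf r) (hg : LSf g) :
    LSf fun x => ruleA (q x) (T x) (l x) (c x) (r x) (g x) := by
  unfold ruleA
  exact LSf.dig hq hT ((((((hl.mul hq).add hc).mul hq).add hr).mul hq).add hg)

theorem lsp_rowA_le (C q T w : ℕ) (g : ℕ → ℕ) (x : ℕ) : rowA C q T w g x ≤ w * (T * C) := by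
  unfold rowA
  calc _ ≤ ∑ _i ∈ range w, T * C :=
        Finset.sum_le_sum fun i _ => Nat.mul_le_mul (dig_le_self _ _ _) (Nat.min_le_right _ _)
    _ = w * (T * C) := by simp

theorem lsp_rowA {C q T w x : α → ℕ} {g : α → ℕ → ℕ} (hC : LSf C) (hq : LSf q)
    (hT : LSf T) (hw : LSf w) (hg : LSf fun y : α × ℕ => g y.1 y.2) (hx : LSf x) :
    LSf fun a => rowA (C a) (q a) (T a) (w a) (g a) (x a) := by
  unfold rowA
  have p1 : LSf fun x : α × ℕ => x.1 := LSf.fst LSf.id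
  have p2 : LSf fun x : α × ℕ => x.2 := LSf.snd LSf.id
  refine LSf.sum hw ?_
  refine (lsp_ruleA (hq.comp p1) (hT.comp p1) ?_ (LSf.dig (hq.comp p1) (hx.comp p1) p2)
    (LSf.dig (hq.comp p1) (hx.comp p1) p2.succ) hg).mul (LSf.powc (hq.comp p1) p2 (hC.comp p1))
  exact LSf.ite (P := fun x : α × ℕ => x.2 = 0) (LSp.eq p2 (LSf.const 0)) (LSf.const 0)
    (LSf.dig (hq.comp p1) (hx.comp p1) p2.pred)

theorem lsp_blockA {C q T B t0 z0 x : α → ℕ} {adv : α → ℕ → ℕ → ℕ} (hC : LSf C) (hq : LSf q)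
    (hT : LSf T) (hB : LSf B) (hadv : LSf fun y : α × ℕ × ℕ => adv y.1 y.2.1 y.2.2)
    (ht : LSf t0) (hz : LSf z0) (hx : LSf x) :
    LSf fun a => blockA (C a) (q a) (T a) (B a) (adv a) (t0 a) (z0 a) (x a) := by
  unfold blockA
  have h3B : LSf fun a => 3 * B a := (LSf.const 3).mul hB
  have p1 : LSf fun p : α × ℕ × ℕ => p.1 := LSf.fst LSf.id
  have p2 : LSf fun p : α × ℕ × ℕ => p.2.1 := LSf.fst (LSf.snd LSf.id)
  have p3 : LSf fun p : α × ℕ × ℕ => p.2.2 := LSf.snd (LSf.snd LSf.id)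
  have q1 : LSf fun y : (α × ℕ × ℕ) × ℕ => y.1 := LSf.fst LSf.id
  have q2 : LSf fun y : (α × ℕ × ℕ) × ℕ => y.2 := LSf.snd LSf.id
  have hit : LSf fun a => runTo (fun t y => rowA (C a) (q a) (T a) (3 * B a)
      (fun i => adv a (t0 a + t) (z0 a + i)) y) (B a) (x a) := by
    refine LSf.runTo (f := x) (g := fun a t y => rowA (C a) (q a) (T a) (3 * B a)
      (fun i => adv a (t0 a + t) (z0 a + i)) y) (B := fun a => x a + 3 * B a * (T a * C a)) hx
      ?_ hB (hx.add (h3B.mul (hT.mul hC))) ?_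
    · refine lsp_rowA (α := α × ℕ × ℕ) (g := fun p i => adv p.1 (t0 p.1 + p.2.1) (z0 p.1 + i))
        (hC.comp p1) (hq.comp p1) (hT.comp p1) (h3B.comp p1) ?_ p3
      exact hadv.comp ((p1.comp q1).pair ((((ht.comp p1).add p2).comp q1).pair
        (((hz.comp p1).comp q1).add q2)))
    · intro a n _
      show runTo _ n (x a) ≤ _
      cases n with
      | zero => exact Nat.le_add_right _ _
      | succ n => exact (lsp_rowA_le _ _ _ _ _ _).trans (Nat.le_add_left _ _)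
  have hpw : LSf fun a => powc (q a) (B a) (C a) := LSf.powc hq hB hC
  exact (hit.div hpw).mod hpw

theorem lsp_GA {C β T B I x : α → ℕ} {adv : α → ℕ → ℕ → ℕ} (hC : LSf C) (hβ : LSf β)
    (hT : LSf T) (hB : LSf B) (hI : LSf I)
    (hadv : LSf fun y : α × ℕ × ℕ => adv y.1 y.2.1 y.2.2) (hx : LSf x) :
    LSf fun a => GA (C a) (β a) (T a) (B a) (I a) (adv a) (x a) := by
  unfold GA
  have hP : LSf fun a => powc 2 (B a * (β a + 1)) (C a) :=
    LSf.powc (LSf.const 2) (hB.mul hβ.succ) hC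
  have hP2 : LSf fun a => powc 2 (2 * (B a * (β a + 1))) (C a) :=
    LSf.powc (LSf.const 2) ((LSf.const 2).mul (hB.mul hβ.succ)) hC
  have hQ : LSf fun a => powc 2 (B a * β a) (C a) := LSf.powc (LSf.const 2) (hB.mul hβ) hC
  have hQ2 : LSf fun a => powc 2 (2 * (B a * β a)) (C a) :=
    LSf.powc (LSf.const 2) ((LSf.const 2).mul (hB.mul hβ)) hC
  have hd : LSf fun a => x a / powc 2 (B a * (β a + 1)) (C a) % powc 2 (B a * (β a + 1)) (C a) /
      powc 2 (B a * β a) (C a) := ((hx.div hP).mod hP).div hQ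
  have hc : LSf fun a => x a % powc 2 (B a * β a) (C a) +
      x a / powc 2 (B a * (β a + 1)) (C a) % powc 2 (B a * β a) (C a) *
        powc 2 (B a * β a) (C a) +
      x a / powc 2 (2 * (B a * (β a + 1))) (C a) % powc 2 (B a * β a) (C a) *
        powc 2 (2 * (B a * β a)) (C a) :=
    ((hx.mod hQ).add (((hx.div hP).mod hQ).mul hQ)).add (((hx.div hP2).mod hQ).mul hQ2)
  refine (lsp_blockA hC (LSf.powc (LSf.const 2) hβ hC) hT hB hadv ((hd.div hI).mul hB)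
    ((hd.mod hI).pred.mul hB) hc).add ?_
  exact ((hd.add hI).mod (LSf.powc (LSf.const 2) hB hC)).mul hQ

theorem lsp_LA {C β s0 s1 c B J n i : α → ℕ} (hC : LSf C) (hβ : LSf β) (hs0 : LSf s0)
    (hs1 : LSf s1) (hc : LSf c) (hB : LSf B) (hJ : LSf J) (hn : LSf n) (hi : LSf i) :
    LSf fun a => LA (C a) (β a) (s0 a) (s1 a) (c a) (B a) (J a) (n a) (i a) := by
  unfold LA
  have p1 : LSf fun x : α × ℕ => x.1 := LSf.fst LSf.id
  have p2 : LSf fun x : α × ℕ => x.2 := LSf.snd LSf.id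
  have hiB : LSf fun x : α × ℕ => i x.1 * B x.1 + x.2 :=
    ((hi.comp p1).mul (hB.comp p1)).add p2
  have hJB : LSf fun x : α × ℕ => J x.1 * B x.1 := (hJ.comp p1).mul (hB.comp p1)
  refine (LSf.sum hB ?_).add ((hi.mod (LSf.powc (LSf.const 2) hB hC)).mul
    (LSf.powc (LSf.const 2) (hB.mul hβ) hC))
  refine LSf.mul ?_ (LSf.powc ((LSf.powc (LSf.const 2) hβ hC).comp p1) p2 (hC.comp p1))
  refine LSf.ite (P := fun x : α × ℕ => J x.1 * B x.1 + 1 ≤ i x.1 * B x.1 + x.2 ∧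
    i x.1 * B x.1 + x.2 ≤ n x.1 + J x.1 * B x.1)
    ((LSp.le hJB.succ hiB).and (LSp.le hiB ((hn.comp p1).add hJB))) ?_ (LSf.const 0)
  exact LSf.ite (P := fun x : α × ℕ => i x.1 * B x.1 + x.2 = c x.1 + J x.1 * B x.1)
    (LSp.eq hiB ((hc.comp p1).add hJB)) (hs1.comp p1) (hs0.comp p1)

/-! ## 3. Advice -/

theorem lsp_advN {q E K W a t z : α → ℕ} (hq : LSf q) (hE : LSf E) (hK : LSf K) (hW : LSf W)
    (ha : LSf a) (ht : LSf t) (hz : LSf z) :
    LSf fun x => advN (q x) (E x) (K x) (W x) (a x) (t x) (z x) := by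
  unfold advN
  have p1 : LSf fun x : α × ℕ => x.1 := LSf.fst LSf.id
  have p2 : LSf fun x : α × ℕ => x.2 := LSf.snd LSf.id
  have hd : LSf fun x : α × ℕ => dig (E x.1) (a x.1) x.2 :=
    LSf.dig (hE.comp p1) (ha.comp p1) p2
  refine (LSf.sum hK ?_).mod hq
  exact LSf.ite (P := fun x : α × ℕ => dig (E x.1) (a x.1) x.2 / q x.1 = t x.1 * W x.1 + z x.1)
    (LSp.eq (hd.div (hq.comp p1)) (((ht.mul hW).add hz).comp p1)) (hd.mod (hq.comp p1))
    (LSf.const 0)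

theorem lsp_Kn {n : α → ℕ} (hn : LSf n) : LSf fun x => Kn (n x) := by
  unfold Kn
  exact hn.div ((LSf.const 8).mul (log_ls.comp hn).succ)

theorem lsp_Wz {n : α → ℕ} (hn : LSf n) : LSf fun x => Wz (n x) := by
  unfold Wz
  exact (((LSf.const 2).mul hn).add (LSf.const 3)).mul hn.succ

/-! ## 4. The outcome -/

theorem lsp_outP {C n e c a : α → ℕ} (hC : LSf C) (hn : LSf n) (he : LSf e) (hc : LSf c)
    (ha : LSf a) : LSf fun x => outP (C x) (n x) (e x) (c x) (a x) := by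
  have hβ : LSf fun x => (e x).unpair.1 + 1 := he.unpair1.succ
  have hT : LSf fun x => (e x).unpair.2.unpair.1 := he.unpair2.unpair1
  have hs0 : LSf fun x => (e x).unpair.2.unpair.2.unpair.1 := he.unpair2.unpair2.unpair1
  have hs1 : LSf fun x => (e x).unpair.2.unpair.2.unpair.2 := he.unpair2.unpair2.unpair2
  have hW : LSf fun x => width (n x) := width_ls.comp hn
  have hb : LSf fun x => width (n x) * ((e x).unpair.1 + 1 + 1) := hW.mul hβ.succ
  have hP : LSf fun x => primeFor (3 * (width (n x) * ((e x).unpair.1 + 1 + 1)) + 2) :=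
    primeFor_ls.comp (((LSf.const 3).mul hb).succ.succ)
  have hq : LSf fun x => powc 2 ((e x).unpair.1 + 1) (C x) := LSf.powc (LSf.const 2) hβ hC
  have hp1 : ∀ x, 1 ≤ primeFor (3 * (width (n x) * ((e x).unpair.1 + 1 + 1)) + 2) := fun x =>
    le_trans (by omega) (primeFor_ge _)
  have hE : LSf fun x => n x * Wz (n x) * powc 2 ((e x).unpair.1 + 1) (C x) :=
    (hn.mul (lsp_Wz hn)).mul hq
  have p1 : LSf fun x : α × ℕ => x.1 := LSf.fst LSf.id
  have p2 : LSf fun x : α × ℕ => x.2 := LSf.snd LSf.id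
  have hadv : LSf fun y : (α × ℕ) × ℕ × ℕ => advN (powc 2 ((e y.1.1).unpair.1 + 1) (C y.1.1))
      (n y.1.1 * Wz (n y.1.1) * powc 2 ((e y.1.1).unpair.1 + 1) (C y.1.1)) (Kn (n y.1.1))
      (Wz (n y.1.1)) (a y.1.1) y.2.1 y.2.2 := by
    have r1 : LSf fun y : (α × ℕ) × ℕ × ℕ => y.1.1 := LSf.fst (LSf.fst LSf.id)
    exact lsp_advN (hq.comp r1) (hE.comp r1) ((lsp_Kn hn).comp r1) ((lsp_Wz hn).comp r1)
      (ha.comp r1) (LSf.fst (LSf.snd LSf.id)) (LSf.snd (LSf.snd LSf.id))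
  have hG : LSf fun y : α × ℕ => GA (C y.1) ((e y.1).unpair.1 + 1) (e y.1).unpair.2.unpair.1
      (width (n y.1)) (2 * width (n y.1) + 2)
      (advN (powc 2 ((e y.1).unpair.1 + 1) (C y.1))
        (n y.1 * Wz (n y.1) * powc 2 ((e y.1).unpair.1 + 1) (C y.1)) (Kn (n y.1))
        (Wz (n y.1)) (a y.1)) y.2 :=
    lsp_GA (α := α × ℕ) (adv := fun y => advN (powc 2 ((e y.1).unpair.1 + 1) (C y.1))
      (n y.1 * Wz (n y.1) * powc 2 ((e y.1).unpair.1 + 1) (C y.1)) (Kn (n y.1))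
      (Wz (n y.1)) (a y.1)) (hC.comp p1) (hβ.comp p1) (hT.comp p1) (hW.comp p1)
      ((((LSf.const 2).mul hW).add (LSf.const 2)).comp p1) hadv p2
  have hL : LSf fun y : α × ℕ => LA (C y.1) ((e y.1).unpair.1 + 1)
      (e y.1).unpair.2.unpair.2.unpair.1 (e y.1).unpair.2.unpair.2.unpair.2 (c y.1)
      (width (n y.1)) (width (n y.1)) (n y.1) y.2 :=
    lsp_LA (hC.comp p1) (hβ.comp p1) (hs0.comp p1) (hs1.comp p1) (hc.comp p1) (hW.comp p1)
      (hW.comp p1) (hn.comp p1) p2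
  unfold outP
  exact LSf.dig hP (lsp_mainG (G := fun x => GA (C x) ((e x).unpair.1 + 1)
      (e x).unpair.2.unpair.1 (width (n x)) (2 * width (n x) + 2)
      (advN (powc 2 ((e x).unpair.1 + 1) (C x))
        (n x * Wz (n x) * powc 2 ((e x).unpair.1 + 1) (C x)) (Kn (n x)) (Wz (n x)) (a x)))
      (L := fun x => LA (C x) ((e x).unpair.1 + 1) (e x).unpair.2.unpair.2.unpair.1
        (e x).unpair.2.unpair.2.unpair.2 (c x) (width (n x)) (width (n x)) (n x))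
      hC hP hb hW hG hL hp1) hβ

end

/-- Row LSP. -/
theorem lsp : LSPStatement := by
  have hout : LSf fun y : (ℕ × ℕ) × ℕ => outP y.1.1 (Nat.log 2 y.1.1)
      (Nat.log 2 y.1.1).unpair.1 (y.1.2 + 1) y.2 := by
    have r1 : LSf fun y : (ℕ × ℕ) × ℕ => y.1.1 := LSf.fst (LSf.fst LSf.id)
    have r2 : LSf fun y : (ℕ × ℕ) × ℕ => y.1.2 := LSf.snd (LSf.fst LSf.id)
    have hn := log_ls.comp r1
    exact lsp_outP r1 hn hn.unpair1 r2.succ (LSf.snd LSf.id)
  have h1 : LSf fun y : ℕ × ℕ => ∑ a ∈ range y.1,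
      if outP y.1 (Nat.log 2 y.1) (Nat.log 2 y.1).unpair.1 (y.2 + 1) a = 1 then 1 else 0 := by
    refine LSf.sum (LSf.fst LSf.id) ?_
    exact LSf.ite (P := fun y : (ℕ × ℕ) × ℕ => outP y.1.1 (Nat.log 2 y.1.1)
      (Nat.log 2 y.1.1).unpair.1 (y.1.2 + 1) y.2 = 1) (LSp.eq hout (LSf.const 1)) (LSf.const 1)
      (LSf.const 0)
  have h2 : LSf fun x : ℕ => ∑ c ∈ range (Nat.log 2 x), ∑ a ∈ range x,
      if outP x (Nat.log 2 x) (Nat.log 2 x).unpair.1 (c + 1) a = 1 then 1 else 0 :=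
    LSf.sum log_ls h1
  have h3 : LSf diagP := LSf.ite (P := fun x : ℕ => (∑ c ∈ range (Nat.log 2 x), ∑ a ∈ range x,
      if outP x (Nat.log 2 x) (Nat.log 2 x).unpair.1 (c + 1) a = 1 then 1 else 0) = 0)
    (LSp.eq h2 (LSf.const 0)) (LSf.const 1) (LSf.const 0)
  exact h3

end Pool.Agent.Lib.MP_4c536a_lc.BG
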